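import Pool.Agent.R228.HT.E

/-!
# A hypercyclic composition operator on the little Lipschitz space of a tree whose symbol has an
infinite backward orbit
-/

set_option autoImplicit false

namespace Pool.Agent.Results.MP_349e68_an.InfiniteBackwardOrbit

open Pool.Agent.R228.HT

/-- The negated form of Q1: there are a rooted, locally finite tree `G` in which only the root may
have degree one, and a self-map `φ` of its vertices such that `C_φ` is bounded on the little
Lipschitz space, `lam C_φ` is hypercyclic for some `lam` with `1 ≤ |lam|`, and a vertex `v` that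
has a preimage under `φ^n` for every `n`. -/
theorem result : ∃ (V : Type) (G : SimpleGraph V) (o : V) (φ : V → V) (lam : ℂ),
    G.IsTree ∧ (∀ v, (G.neighborSet v).Finite) ∧ (∀ v, v ≠ o → 2 ≤ (G.neighborSet v).ncard) ∧
    BoundedOn G o (compOp 1 φ) ∧ 1 ≤ ‖lam‖ ∧ HypercyclicOn G o (compOp lam φ) ∧
    ∃ v, ∀ n : ℕ, ∃ w, φ^[n] w = v :=
  ⟨Vt, T, rt, phi, 1, isPar.isTree, fin_nbr, nbr_card, bounded 1, by simp, hyper, rt,
    exists_preimage⟩

end Pool.Agent.Results.MP_349e68_an.InfiniteBackwardOrbit
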